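import Mathlib

/-!
Strong abundance for nef classes on Calabi-Yau manifolds: reduction to the factors of the
Beauville-Bogomolov decomposition.
-/

namespace Pool.Agent.Results.MP_cfacaa_ag.KnownFactors

/-- Smooth projective varieties with numerically trivial canonical class, the rational vector spaces
`N X` of rational (1,1)-classes, morphisms `Hom X Y` with their pull-backs, nef classes, and
semiample classes (`Fibred X L`: there are a fibration `g : X → B` and an ample class `L_B` with
`L = g^* L_B`; then `g` is unique up to isomorphism by the rigidity lemma). `Etale f`: `f` is finite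
etale and surjective. `Constant f`: `f` is constant. `Irreducible Y`: `Y` is an abelian variety, a
simply connected Calabi-Yau manifold in the strict sense or an irreducible symplectic manifold.
`Known Y`: `Y` is an abelian variety, a K3 surface, a hyperkaehler manifold of type K3^[n], Kum_n,
OG6 or OG10, a smooth anticanonical divisor in a Fano manifold of dimension at least 4, or has
Picard number one. -/
structure Geometry where
  Var : Type
  N : Var → Type
  [grp : ∀ X, AddCommGroup (N X)]
  [mod : ∀ X, Module ℚ (N X)]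
  Hom : Var → Var → Type
  comp : ∀ {X Y Z : Var}, Hom Y Z → Hom X Y → Hom X Z
  idd : ∀ X : Var, Hom X X
  pull : ∀ {X Y : Var}, Hom X Y → N Y →ₗ[ℚ] N X
  Nef : (X : Var) → N X → Prop
  Fibred : (X : Var) → N X → Prop
  Etale : ∀ {X Y : Var}, Hom X Y → Prop
  Constant : ∀ {X Y : Var}, Hom X Y → Prop
  Irreducible : Var → Prop
  Known : Var → Prop

attribute [instance] Geometry.grp Geometry.mod

namespace Geometry

variable (M : Geometry)

/-- Q1 for the variety `X` -/
def Abundant (X : M.Var) : Prop := ∀ L : M.N X, M.Nef X L → M.Fibred X L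

/-- functoriality of the pull-back; constant maps pull back to zero -/
def Functorial : Prop :=
  (∀ (X Y Z : M.Var) (f : M.Hom Y Z) (g : M.Hom X Y) (L : M.N Z),
    M.pull (M.comp f g) L = M.pull g (M.pull f L)) ∧
  (∀ (X : M.Var) (L : M.N X), M.pull (M.idd X) L = L) ∧
  ∀ (X Y : M.Var) (f : M.Hom X Y), M.Constant f → ∀ L, M.pull f L = 0

/-- nef classes: pull-backs are nef -/
def NefClasses : Prop :=
  ∀ (X Y : M.Var) (f : M.Hom X Y) (L : M.N Y), M.Nef Y L → M.Nef X (M.pull f L)

/-- semiample classes: pull-backs and sums are semiample (Stein factorization) -/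
def FibredClasses : Prop :=
  (∀ (X Y : M.Var) (f : M.Hom X Y) (L : M.N Y), M.Fibred Y L → M.Fibred X (M.pull f L)) ∧
  (∀ (X : M.Var) (L L' : M.N X), M.Fibred X L → M.Fibred X L' → M.Fibred X (L + L')) ∧
  ∀ X : M.Var, M.Fibred X 0

/-- semiampleness descends along finite etale covers (norms) -/
def Descent : Prop :=
  ∀ (X Y : M.Var) (f : M.Hom X Y), M.Etale f → ∀ L : M.N Y, M.Fibred X (M.pull f L) → M.Fibred Y L

/-- a finite etale cover `cov : Z → X` by a product `Z` of varieties `Y i` with projections `p i`
and sections `s i` (the inclusions of the factors), such that all (1,1)-classes of `Z` are sums of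
pull-backs from the factors -/
structure ProductCover (X : M.Var) where
  n : ℕ
  Y : Fin n → M.Var
  Z : M.Var
  cov : M.Hom Z X
  p : (i : Fin n) → M.Hom Z (Y i)
  s : (i : Fin n) → M.Hom (Y i) Z

/-- the properties of a product cover -/
def IsProductCover {X : M.Var} (D : M.ProductCover X) : Prop :=
  M.Etale D.cov ∧ (∀ i, M.comp (D.p i) (D.s i) = M.idd (D.Y i)) ∧
  (∀ i j, i ≠ j → M.Constant (M.comp (D.p i) (D.s j))) ∧
  ∀ L : M.N D.Z, ∃ K : (i : Fin D.n) → M.N (D.Y i), L = ∑ i, M.pull (D.p i) (K i)

/-- the component of a class on the factor `Y i` -/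
def component {X : M.Var} (D : M.ProductCover X) (i : Fin D.n) (L : M.N X) : M.N (D.Y i) :=
  M.pull (D.s i) (M.pull D.cov L)

/-- Beauville, Bogomolov: every variety has such a cover with irreducible factors (at most one
factor is abelian, the others have no holomorphic 1-forms) -/
def Decomposition : Prop :=
  ∀ X : M.Var, ∃ D : M.ProductCover X, M.IsProductCover D ∧ ∀ i, M.Irreducible (D.Y i)

/-- Q1 for the known varieties: Matsushita, Bayer-Macrì, Markman, Yoshioka, Mongardi-Rapagnetta,
Mongardi-Onorati (hyperkaehler), Kollár (anticanonical divisors) -/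
def KnownCases : Prop := ∀ Y, M.Known Y → M.Abundant Y

variable {M}

theorem sum_component (h1 : M.Functorial) {X : M.Var} (D : M.ProductCover X)
    (hD : M.IsProductCover D) (L : M.N X) :
    M.pull D.cov L = ∑ i, M.pull (D.p i) (M.component D i L) := by
  classical
  obtain ⟨-, h2, h3, h4⟩ := hD
  obtain ⟨K, hK⟩ := h4 (M.pull D.cov L)
  have : ∀ i, M.component D i L = K i := by
    intro i
    unfold component
    rw [hK, map_sum, Finset.sum_eq_single i]
    · rw [← h1.1, h2, h1.2.1]
    · intro j _ hj
      rw [← h1.1]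
      exact h1.2.2 _ _ _ (h3 j i hj) _
    · intro h; exact absurd (Finset.mem_univ i) h
  rw [hK]
  exact Finset.sum_congr rfl fun i _ => by rw [this]

theorem fibred_iff (h1 : M.Functorial) (h2 : M.FibredClasses) (h3 : M.Descent) {X : M.Var}
    (D : M.ProductCover X) (hD : M.IsProductCover D) (L : M.N X) :
    M.Fibred X L ↔ ∀ i, M.Fibred (D.Y i) (M.component D i L) := by
  classical
  constructor
  · intro h i
    exact h2.1 _ _ _ _ (h2.1 _ _ _ _ h)
  · intro h
    refine h3 _ _ D.cov hD.1 L ?_
    rw [sum_component h1 D hD L]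
    have key : ∀ S : Finset (Fin D.n),
        M.Fibred D.Z (∑ i ∈ S, M.pull (D.p i) (M.component D i L)) := by
      intro S
      induction S using Finset.induction_on with
      | empty => rw [Finset.sum_empty]; exact h2.2.2 _
      | insert a S ha ih =>
        rw [Finset.sum_insert ha]
        exact h2.2.1 _ _ _ (h2.1 _ _ _ _ (h a)) ih
    exact key Finset.univ

theorem nef_component (h1 : M.NefClasses) {X : M.Var} (D : M.ProductCover X) (L : M.N X)
    (hL : M.Nef X L) (i : Fin D.n) : M.Nef (D.Y i) (M.component D i L) :=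
  h1 _ _ _ _ (h1 _ _ _ _ hL)

end Geometry

theorem result (M : Geometry) (h1 : M.Functorial) (h2 : M.NefClasses) (h3 : M.FibredClasses)
    (h4 : M.Descent) (h5 : M.Decomposition) (h6 : M.KnownCases) :
    (∀ (X : M.Var) (D : M.ProductCover X), M.IsProductCover D →
      (∀ L : M.N X, (M.Fibred X L ↔ ∀ i, M.Fibred (D.Y i) (M.component D i L)) ∧
        (M.Nef X L → ∀ i, M.Nef (D.Y i) (M.component D i L))) ∧
      ((∀ i, M.Abundant (D.Y i)) → M.Abundant X) ∧
      ((∀ i, M.Known (D.Y i)) → M.Abundant X)) ∧
    ((∀ X, M.Abundant X) ↔ ∀ X, M.Irreducible X → M.Abundant X) := by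
  have key : ∀ (X : M.Var) (D : M.ProductCover X), M.IsProductCover D →
      (∀ i, M.Abundant (D.Y i)) → M.Abundant X := by
    intro X D hD h L hL
    rw [Geometry.fibred_iff h1 h3 h4 D hD L]
    intro i
    exact h i _ (Geometry.nef_component h2 D L hL i)
  refine ⟨fun X D hD => ⟨fun L => ⟨Geometry.fibred_iff h1 h3 h4 D hD L,
    fun hL i => Geometry.nef_component h2 D L hL i⟩, key X D hD,
    fun h => key X D hD fun i => h6 _ (h i)⟩, ?_⟩
  constructor
  · intro h X _; exact h X
  · intro h X
    obtain ⟨D, hD, hI⟩ := h5 X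
    exact key X D hD fun i => h _ (hI i)

end Pool.Agent.Results.MP_cfacaa_ag.KnownFactors
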